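import Pool.Agent.Helper24.UN.Full
import Pool.Agent.Helper81.AN.TrS
import Pool.Agent.Helper68.BR.GoodB
import Pool.Agent.Helper68.BR.CovPSL

/-!
# Q1 for groups with alternating composition factors and composition factors of Lie type

`result`: Q1 holds for every prime `p ≥ 5` and every finite group `G` with a series
`1 = M 0 ⊴ M 1 ⊴ ... ⊴ M n = G` each of whose factors is abelian, or has cyclic Sylow `p`-subgroups, or is
isomorphic to an alternating group (of any degree) or to `PSL₂(k)` (`k` any finite field), or is a group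
all of whose subgroups of index prime to `p` have a series with factors which are of one of these four
kinds, or are groups `PSLₙ(k)` with `3 ≤ n < p` and `p ∣ |k| - 1`, or are simple groups of which all finite
perfect central extensions by groups of order prime to `p` have a split Bruhat decomposition at `p`.

This is joint work of many agents of the team (helper81: the plan for the covering groups of the
alternating groups; see the departures files).
-/

namespace Pool.Agent.Results.MP_5ecade_al.AlternatingAndLieType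

/-- The set of irreducible complex characters of `G`. -/
def Irr (G : Type) [Group G] : Set (G → ℂ) :=
  {χ | ∃ (V : Type) (_ : AddCommGroup V) (_ : Module ℂ V) (_ : FiniteDimensional ℂ V)
    (ρ : Representation ℂ G V), ρ.IsIrreducible ∧ χ = ρ.character}

/-- The set of irreducible complex characters of `G` of degree not divisible by `p`. -/
def IrrP (p : ℕ) (G : Type) [Group G] : Set (G → ℂ) :=
  {χ | χ ∈ Irr G ∧ ∃ n : ℕ, χ 1 = n ∧ ¬ p ∣ n}

/-- Q1 for the prime `p` and the group `G`: for every Sylow `p`-subgroup `P` of `G` there is a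
bijection from the irreducible characters of `G` of degree prime to `p` onto those of the
normalizer of `P` which preserves the degree up to sign modulo `p`. -/
def McKayCongr (p : ℕ) (G : Type) [Group G] : Prop :=
  ∀ P : Sylow p G, ∃ e : IrrP p G ≃ IrrP p (Subgroup.normalizer (P : Set G)),
    ∀ χ : IrrP p G, ∃ m n : ℕ, χ.1 1 = m ∧ (e χ).1 1 = n ∧
      ((m : ℤ) ≡ n [ZMOD p] ∨ (m : ℤ) ≡ -n [ZMOD p])

/-- The group `K` has a split Bruhat decomposition at `p`: there are an abelian Sylow `p`-subgroup
`P` of `K` and a subgroup `U` normalized by `P` and without nontrivial fixed points of `P` such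
that `K = U N U`, where `N` is the normalizer of `P`, and every automorphism of `K` which stabilizes
`P` maps `U` to a conjugate of `U` under an element of `N`. -/
def BruhatAt (p : ℕ) (K : Type) [Group K] : Prop :=
  ∃ P U : Subgroup K, IsPGroup p P ∧ ¬ p ∣ P.index ∧ (∀ a ∈ P, ∀ b ∈ P, a * b = b * a) ∧
    (∀ x ∈ P, ∀ u ∈ U, x * u * x⁻¹ ∈ U) ∧
    (∀ u ∈ U, (∀ x ∈ P, x * u = u * x) → u = 1) ∧
    (∀ g : K, ∃ u ∈ U, ∃ n ∈ Subgroup.normalizer (P : Set K), ∃ u' ∈ U, g = u * n * u') ∧
    ∀ α : MulAut K, (∀ x, α x ∈ P ↔ x ∈ P) →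
      ∃ n ∈ Subgroup.normalizer (P : Set K), ∀ x, n⁻¹ * α x * n ∈ U ↔ x ∈ U

/-- The group `F` is `PSLₙ(k)` for some `n` with `3 ≤ n < p` and some finite field `k` with
`p ∣ |k| - 1`, or all finite perfect central extensions of `F` by groups of order prime to `p` have a
split Bruhat decomposition at `p`. -/
def LieLike (p : ℕ) (F : Type) [Group F] : Prop :=
  (∃ (n : ℕ) (k : Type) (_ : Field k) (_ : Finite k), 3 ≤ n ∧ n < p ∧ p ∣ Nat.card k - 1 ∧
      Nonempty (F ≃* Matrix.ProjectiveSpecialLinearGroup (Fin n) k)) ∨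
    ∀ (K : Type) [Group K] [Finite K], ⁅(⊤ : Subgroup K), (⊤ : Subgroup K)⁆ = ⊤ →
      Nonempty ((K ⧸ Subgroup.center K) ≃* F) → ¬ p ∣ Nat.card (Subgroup.center K) →
      BruhatAt p K

/-- The group `F` is a basic factor: it is abelian, or its Sylow `p`-subgroups are cyclic, or it is
isomorphic to an alternating group or to `PSL₂(k)` for some finite field `k`, or it is simple and
`LieLike`. -/
def Basic (p : ℕ) (F : Type) [Group F] : Prop :=
  (∀ a b : F, a * b = b * a) ∨ (∀ P : Sylow p F, IsCyclic P) ∨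
    (∃ m : ℕ, Nonempty (F ≃* alternatingGroup (Fin m))) ∨
    (∃ (k : Type) (_ : Field k) (_ : Finite k),
      Nonempty (F ≃* Matrix.ProjectiveSpecialLinearGroup (Fin 2) k)) ∨
    (IsSimpleGroup F ∧ LieLike p F)

/-- The group `G` has a series `1 = M 0 ⊴ M 1 ⊴ ... ⊴ M n = G` with factors in the class `R`. -/
def HasSeries (R : (F : Type) → [Group F] → Prop) (G : Type) [Group G] : Prop :=
  ∃ (n : ℕ) (M : ℕ → Subgroup G), M 0 = ⊥ ∧ M n = ⊤ ∧
    ∀ i < n, M i ≤ M (i + 1) ∧ ∃ _ : ((M i).subgroupOf (M (i + 1))).Normal,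
      R (M (i + 1) ⧸ (M i).subgroupOf (M (i + 1)))

/-- The group `F` is an allowed factor: it is abelian, or its Sylow `p`-subgroups are cyclic, or it is
isomorphic to an alternating group or to `PSL₂(k)` for some finite field `k`, or all its subgroups of
index prime to `p` have a series with basic factors. -/
def Allowed (p : ℕ) (F : Type) [Group F] : Prop :=
  (∀ a b : F, a * b = b * a) ∨ (∀ P : Sylow p F, IsCyclic P) ∨
    (∃ m : ℕ, Nonempty (F ≃* alternatingGroup (Fin m))) ∨
    (∃ (k : Type) (_ : Field k) (_ : Finite k),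
      Nonempty (F ≃* Matrix.ProjectiveSpecialLinearGroup (Fin 2) k)) ∨
    (∀ L : Subgroup F, ¬ p ∣ L.index → HasSeries (fun X [Group X] => Basic p X) L)

section proof

open Pool.Agent.Helper68.BR

private theorem lie_iso (p : ℕ) : IsoCl (fun F [Group F] => LieLike p F) := by
  intro X Y _ _ e h
  rcases h with ⟨n, k, h1, h2, h3, h4, h5, ⟨e'⟩⟩ | h
  · exact Or.inl ⟨n, k, h1, h2, h3, h4, h5, ⟨e.symm.trans e'⟩⟩
  · refine Or.inr ?_
    intro K _ _ hK he hz
    obtain ⟨e'⟩ := he
    exact h K hK ⟨e'.trans e.symm⟩ hz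

private theorem lie_good {p : ℕ} [Fact p.Prime] (F : Type) [Group F] (hF : IsSimpleGroup F)
    (hF' : ¬ ∀ a b : F, a * b = b * a) (h : LieLike p F) (K : Type) [Group K] [Finite K]
    (hK : ⁅(⊤ : Subgroup K), (⊤ : Subgroup K)⁆ = ⊤)
    (he : Nonempty ((K ⧸ Subgroup.center K) ≃* F)) (hz : ¬ p ∣ Nat.card (Subgroup.center K))
    (hp : p ∣ Nat.card K) : Pool.Agent.Helper7.MK.Good p K := by
  rcases h with ⟨n, k, h1, h2, h3, h4, h5, ⟨e'⟩⟩ | h
  · obtain ⟨e⟩ := he
    obtain ⟨P, U, hB, hFr⟩ := bru_of_psl h3 h4 h5 hz (e.trans e')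
    exact good_of_bru K hK hz hp F hF hF' ⟨e⟩ hB hFr
  · obtain ⟨P, U, a1, a2, a3, a4, a5, a6, a7⟩ := h K hK he hz
    exact good_of_bru K hK hz hp F hF hF' he ⟨a1, a2, a3, a4, a5, a6⟩ a7

end proof

/-- Q1 holds for every prime `p ≥ 5` and every finite group `G` with a series with allowed factors. -/
theorem result (p : ℕ) [Fact p.Prime] (h5 : 5 ≤ p) (G : Type) [Group G] [Finite G]
    (h : HasSeries (fun X [Group X] => Allowed p X) G) : McKayCongr p G :=
  Pool.Agent.Helper24.UN.final_full p (by omega) (lie_iso p) (fun F [Group F] => lie_good F)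
    (fun m hm => Pool.Agent.Helper81.AN.pgood_all p h5 m hm) G h

end Pool.Agent.Results.MP_5ecade_al.AlternatingAndLieType
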