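import Pool.Agent.Helper55.PL.Top
import Pool.Agent.Helper57.PL.Prime
import Pool.Agent.Helper42.PL.Final

/-!
# Q1 for groups whose nonabelian composition factors have cyclic Sylow `p`-subgroups or are `PSL₂(k)`
-/

namespace Pool.Agent.Results.MP_5ecade_al.PSLTwo

/-- The set of irreducible complex characters of `G`. -/
def Irr (G : Type) [Group G] : Set (G → ℂ) :=
  {χ | ∃ (V : Type) (_ : AddCommGroup V) (_ : Module ℂ V) (_ : FiniteDimensional ℂ V)
    (ρ : Representation ℂ G V), ρ.IsIrreducible ∧ χ = ρ.character}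

/-- The set of irreducible complex characters of `G` of degree not divisible by `p`. -/
def IrrP (p : ℕ) (G : Type) [Group G] : Set (G → ℂ) :=
  {χ | χ ∈ Irr G ∧ ∃ n : ℕ, χ 1 = n ∧ ¬ p ∣ n}

/-- Q1 for the prime `p` and the group `G`: for every Sylow `p`-subgroup `P` of `G` there is a
bijection from the irreducible characters of `G` of degree prime to `p` onto those of the
normalizer of `P` which preserves the degree up to sign modulo `p`. -/
def McKayCongr (p : ℕ) (G : Type) [Group G] : Prop :=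
  ∀ P : Sylow p G, ∃ e : IrrP p G ≃ IrrP p (Subgroup.normalizer (P : Set G)),
    ∀ χ : IrrP p G, ∃ m n : ℕ, χ.1 1 = m ∧ (e χ).1 1 = n ∧
      ((m : ℤ) ≡ n [ZMOD p] ∨ (m : ℤ) ≡ -n [ZMOD p])

/-- The group `F` is abelian, or its Sylow `p`-subgroups are cyclic, or it is isomorphic to
`PSL₂(k)` for a finite field `k`. -/
def Allowed (p : ℕ) (F : Type) [Group F] : Prop :=
  (∀ a b : F, a * b = b * a) ∨ (∀ P : Sylow p F, IsCyclic P) ∨
    ∃ (k : Type) (_ : Field k) (_ : Finite k),
      Nonempty (F ≃* Matrix.ProjectiveSpecialLinearGroup (Fin 2) k)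

/-- Q1 holds for the odd prime `p` and every finite group `G` with a series
`1 = H 0 ⊴ H 1 ⊴ ... ⊴ H n = G` each of whose factors is abelian, or has cyclic Sylow
`p`-subgroups, or is isomorphic to `PSL₂(k)` for a finite field `k`. -/
theorem result (p : ℕ) [Fact p.Prime] (hp : p ≠ 2) (G : Type) [Group G] [Finite G] (n : ℕ)
    (H : ℕ → Subgroup G) (h0 : H 0 = ⊥) (h1 : H n = ⊤)
    (hs : ∀ i < n, H i ≤ H (i + 1) ∧ ∃ _ : ((H i).subgroupOf (H (i + 1))).Normal,
      Allowed p (H (i + 1) ⧸ (H i).subgroupOf (H (i + 1)))) :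
    McKayCongr p G := by
  refine Pool.Agent.Helper42.PL.final (fun k _ _ _ hk => ?_) G n H h0 h1 (fun i hi => ?_)
  · exact Pool.Agent.Helper57.PL.pgood_of hp (Pool.Agent.Helper55.PL.slGood p hp k)
  · obtain ⟨h2, h3, h4⟩ := hs i hi
    refine ⟨h2, h3, ?_⟩
    rcases h4 with h4 | h4 | ⟨k, _, _, ⟨e⟩⟩
    · exact Or.inl h4
    · exact Or.inr (Or.inl h4)
    · rcases Pool.Agent.Helper57.PL.psl_cases (k := k) hp with h5 | ⟨h5, h6⟩
      · exact Or.inr (Or.inl (Pool.Agent.Helper42.PL.cyc_of_inj e.toMonoidHom e.injective h5))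
      · exact Or.inr (Or.inr ⟨k, inferInstance, inferInstance, h5, h6, ⟨e⟩⟩)

end Pool.Agent.Results.MP_5ecade_al.PSLTwo
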