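import Pool.Agent.Helper68.BR.GoodB
import Pool.Agent.Helper68.BR.CovPSL
import Pool.Agent.Helper68.BR.FinalG

/-!
# Q1 for groups whose composition factors have a split Bruhat decomposition

`result`: Q1 holds for the prime `p` and every finite group `G` such that all composition factors of
all subgroups of `G` of index prime to `p` are abelian, or have cyclic Sylow `p`-subgroups, or are
groups `PSLₙ(k)` with `3 ≤ n < p` and `p ∣ |k| - 1`, or have a split Bruhat decomposition at `p`.
-/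

namespace Pool.Agent.Results.MP_5ecade_al.SplitBruhat

/-- The set of irreducible complex characters of `G`. -/
def Irr (G : Type) [Group G] : Set (G → ℂ) :=
  {χ | ∃ (V : Type) (_ : AddCommGroup V) (_ : Module ℂ V) (_ : FiniteDimensional ℂ V)
    (ρ : Representation ℂ G V), ρ.IsIrreducible ∧ χ = ρ.character}

/-- The set of irreducible complex characters of `G` of degree not divisible by `p`. -/
def IrrP (p : ℕ) (G : Type) [Group G] : Set (G → ℂ) :=
  {χ | χ ∈ Irr G ∧ ∃ n : ℕ, χ 1 = n ∧ ¬ p ∣ n}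

/-- Q1 for the prime `p` and the group `G`: for every Sylow `p`-subgroup `P` of `G` there is a
bijection from the irreducible characters of `G` of degree prime to `p` onto those of the
normalizer of `P` which preserves the degree up to sign modulo `p`. -/
def McKayCongr (p : ℕ) (G : Type) [Group G] : Prop :=
  ∀ P : Sylow p G, ∃ e : IrrP p G ≃ IrrP p (Subgroup.normalizer (P : Set G)),
    ∀ χ : IrrP p G, ∃ m n : ℕ, χ.1 1 = m ∧ (e χ).1 1 = n ∧
      ((m : ℤ) ≡ n [ZMOD p] ∨ (m : ℤ) ≡ -n [ZMOD p])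

/-- The group `K` has a split Bruhat decomposition at `p`: there are an abelian Sylow `p`-subgroup
`P` of `K` and a subgroup `U` normalized by `P` and without nontrivial fixed points of `P` such
that `K = U N U`, where `N` is the normalizer of `P`, and every automorphism of `K` which stabilizes
`P` maps `U` to a conjugate of `U` under an element of `N`. -/
def BruhatAt (p : ℕ) (K : Type) [Group K] : Prop :=
  ∃ P U : Subgroup K, IsPGroup p P ∧ ¬ p ∣ P.index ∧ (∀ a ∈ P, ∀ b ∈ P, a * b = b * a) ∧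
    (∀ x ∈ P, ∀ u ∈ U, x * u * x⁻¹ ∈ U) ∧
    (∀ u ∈ U, (∀ x ∈ P, x * u = u * x) → u = 1) ∧
    (∀ g : K, ∃ u ∈ U, ∃ n ∈ Subgroup.normalizer (P : Set K), ∃ u' ∈ U, g = u * n * u') ∧
    ∀ α : MulAut K, (∀ x, α x ∈ P ↔ x ∈ P) →
      ∃ n ∈ Subgroup.normalizer (P : Set K), ∀ x, n⁻¹ * α x * n ∈ U ↔ x ∈ U

/-- The group `F` is admissible: it is abelian, or its Sylow `p`-subgroups are cyclic, or it is
simple and either isomorphic to `PSLₙ(k)` for some `n` with `3 ≤ n < p` and some finite field `k`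
with `p ∣ |k| - 1`, or such that all finite perfect central extensions of `F` by groups of order prime
to `p` have a split Bruhat decomposition at `p`. -/
def Admissible (p : ℕ) (F : Type) [Group F] : Prop :=
  (∀ a b : F, a * b = b * a) ∨ (∀ P : Sylow p F, IsCyclic P) ∨
    (IsSimpleGroup F ∧
      ((∃ (n : ℕ) (k : Type) (_ : Field k) (_ : Finite k), 3 ≤ n ∧ n < p ∧ p ∣ Nat.card k - 1 ∧
          Nonempty (F ≃* Matrix.ProjectiveSpecialLinearGroup (Fin n) k)) ∨
        ∀ (K : Type) [Group K] [Finite K], ⁅(⊤ : Subgroup K), (⊤ : Subgroup K)⁆ = ⊤ →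
          Nonempty ((K ⧸ Subgroup.center K) ≃* F) → ¬ p ∣ Nat.card (Subgroup.center K) →
          BruhatAt p K))

/-- The group `H` has a series `1 = M 0 ⊴ M 1 ⊴ ... ⊴ M n = H` with admissible factors. -/
def HasSeries (p : ℕ) (H : Type) [Group H] : Prop :=
  ∃ (n : ℕ) (M : ℕ → Subgroup H), M 0 = ⊥ ∧ M n = ⊤ ∧
    ∀ i < n, M i ≤ M (i + 1) ∧ ∃ _ : ((M i).subgroupOf (M (i + 1))).Normal,
      Admissible p (M (i + 1) ⧸ (M i).subgroupOf (M (i + 1)))

section proof

open Pool.Agent.Helper68.BR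

/-- the class of simple groups -/
private def Sim (p : ℕ) (F : Type) [Group F] : Prop :=
  (∃ (n : ℕ) (k : Type) (_ : Field k) (_ : Finite k), 3 ≤ n ∧ n < p ∧ p ∣ Nat.card k - 1 ∧
      Nonempty (F ≃* Matrix.ProjectiveSpecialLinearGroup (Fin n) k)) ∨
    ∀ (K : Type) [Group K] [Finite K], ⁅(⊤ : Subgroup K), (⊤ : Subgroup K)⁆ = ⊤ →
      Nonempty ((K ⧸ Subgroup.center K) ≃* F) → ¬ p ∣ Nat.card (Subgroup.center K) →
      BruhatAt p K

private lemma sim_iso (p : ℕ) : IsoCl (fun F [Group F] => Sim p F) := by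
  intro X Y _ _ e h
  rcases h with ⟨n, k, h1, h2, h3, h4, h5, ⟨e'⟩⟩ | h
  · exact Or.inl ⟨n, k, h1, h2, h3, h4, h5, ⟨e.symm.trans e'⟩⟩
  · refine Or.inr ?_
    intro K _ _ hK he hz
    obtain ⟨e'⟩ := he
    exact h K hK ⟨e'.trans e.symm⟩ hz

private lemma sim_good {p : ℕ} [Fact p.Prime] (F : Type) [Group F] (hF : IsSimpleGroup F)
    (hF' : ¬ ∀ a b : F, a * b = b * a) (h : Sim p F) (K : Type) [Group K] [Finite K]
    (hK : ⁅(⊤ : Subgroup K), (⊤ : Subgroup K)⁆ = ⊤)
    (he : Nonempty ((K ⧸ Subgroup.center K) ≃* F)) (hz : ¬ p ∣ Nat.card (Subgroup.center K))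
    (hp : p ∣ Nat.card K) : Pool.Agent.Helper7.MK.Good p K := by
  rcases h with ⟨n, k, h1, h2, h3, h4, h5, ⟨e'⟩⟩ | h
  · obtain ⟨e⟩ := he
    obtain ⟨P, U, hB, hFr⟩ := bru_of_psl h3 h4 h5 hz (e.trans e')
    exact good_of_bru K hK hz hp F hF hF' ⟨e⟩ hB hFr
  · obtain ⟨P, U, a1, a2, a3, a4, a5, a6, a7⟩ := h K hK he hz
    exact good_of_bru K hK hz hp F hF hF' he ⟨a1, a2, a3, a4, a5, a6⟩ a7

private lemma cls_of_series {p : ℕ} [Fact p.Prime] {H : Type} [Group H] [Finite H]
    (h : HasSeries p H) : ClsG p (fun F [Group F] => Sim p F) H := by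
  obtain ⟨n, M, h0, h1, hs⟩ := h
  have key : ∀ i ≤ n, ClsG p (fun F [Group F] => Sim p F) (M i) := by
    intro i
    induction i with
    | zero =>
      intro _
      have : Subsingleton (M 0) := by
        rw [h0]
        infer_instance
      exact ClsG.triv _
    | succ i ih =>
      intro hi
      obtain ⟨h2, h3, h4⟩ := hs i hi
      refine ClsG.ext _ ((M i).subgroupOf (M (i + 1))) ?_ h4
      exact (ih (Nat.le_of_succ_le hi)).congr (sim_iso p) (Subgroup.subgroupOfEquivOfLe h2).symm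
  have h2 := key n le_rfl
  rw [h1] at h2
  exact h2.congr (sim_iso p) Subgroup.topEquiv

end proof

/-- Q1 holds for `p` and every finite group `G` such that all subgroups of `G` of index prime to
`p` have a series with admissible factors. -/
theorem result (p : ℕ) [Fact p.Prime] (G : Type) [Group G] [Finite G]
    (h : ∀ H : Subgroup G, ¬ p ∣ H.index → HasSeries p H) : McKayCongr p G :=
  Pool.Agent.Helper68.BR.final_ccg (sim_iso p) (fun F [Group F] => sim_good F) G
    (fun H hH => cls_of_series (h H hH))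

end Pool.Agent.Results.MP_5ecade_al.SplitBruhat
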