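import Pool.Agent.Helper42.INC.Main

/-!
# The congruence form of the McKay statement reduces to groups `C_r ≀ H`

For every prime `r` (equal to `p` or not), the statement of Q1 for the prime `p` and all finite
groups is equivalent to the statement for the prime `p` and all regular wreath products `C_r ≀ H`.
-/

open MulAction

namespace Pool.Agent.Results.MP_5ecade_al.WreathReduction

open Pool.Agent.Helper42.INC

/-- left translation action of `H` on functions `H → C` -/
def shift (C H : Type) [CommGroup C] [Group H] : H →* MulAut (H → C) where
  toFun h :=
    { toFun := fun f x => f (h⁻¹ * x)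
      invFun := fun f x => f (h * x)
      left_inv := fun f => by ext x; simp
      right_inv := fun f => by ext x; simp
      map_mul' := fun f g => rfl }
  map_one' := by ext f x; simp
  map_mul' h k := by
    ext f x
    simp [mul_assoc]

/-- the wreath product as a semidirect product -/
def wreathEquiv (C H : Type) [CommGroup C] [Group H] :
    (H → C) ⋊[shift C H] H ≃* RegularWreathProduct C H where
  toFun g := ⟨g.left, g.right⟩
  invFun g := ⟨g.left, g.right⟩
  left_inv _ := rfl
  right_inv _ := rfl
  map_mul' _ _ := rfl

lemma mcKay_transport {p : ℕ} [Fact p.Prime] {G G' : Type} [Group G] [Group G'] [Finite G]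
    [Finite G'] (e : G ≃* G') (h : McKayCongr p G') : McKayCongr p G := by
  obtain ⟨P⟩ : Nonempty (Sylow p G) := inferInstance
  have hN : (Subgroup.normalizer (P : Set G)).map e.toMonoidHom =
      Subgroup.normalizer ((P.mapSurjective (f := e.toMonoidHom) e.surjective : Sylow p G') :
        Set G') :=
    Subgroup.map_equiv_normalizer_eq (P : Subgroup G) e
  have e2 : Subgroup.normalizer (P : Set G) ≃*
      Subgroup.normalizer ((P.mapSurjective (f := e.toMonoidHom) e.surjective : Sylow p G') :
        Set G') :=
    (e.subgroupMap _).trans (MulEquiv.subgroupCongr hN)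
  rw [mcKay_iff P]
  intro s hs
  rw [cnt_congr e, cnt_congr e2]
  exact (mcKay_iff _).1 h s hs

/-- For primes `p` and `r`: Q1 for `p` holds for all finite groups if and only if it holds for `p`
and all regular wreath products `C_r ≀ H`, `H` a finite group. -/
theorem result (p r : ℕ) [Fact p.Prime] [Fact r.Prime] :
    (∀ (G : Type) [Group G] [Finite G], McKayCongr p G) ↔
      ∀ (H : Type) [Group H] [Finite H],
        McKayCongr p (RegularWreathProduct (Multiplicative (ZMod r)) H) := by
  constructor
  · intro h H _ _
    have : NeZero r := ⟨(Fact.out : r.Prime).ne_zero⟩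
    exact h _
  · intro h
    have : NeZero r := ⟨(Fact.out : r.Prime).ne_zero⟩
    have key : ∀ n : ℕ, ∀ (G : Type) [Group G] [Finite G], Nat.card G = n → McKayCongr p G := by
      intro n
      induction n using Nat.strong_induction_on with
      | _ n ih =>
        intro G _ _ hn
        have h1 : McKayCongr p ((G → Multiplicative (ZMod r)) ⋊[shift (Multiplicative (ZMod r)) G]
            G) := mcKay_transport (wreathEquiv _ _) (h G)
        refine (affine_reduction (shift (Multiplicative (ZMod r)) G) ?_).1 h1
        intro K hK _
        refine ih (Nat.card K) ?_ K rfl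
        rw [← hn]
        refine lt_of_le_of_ne (Subgroup.card_le_card_group K) (fun he => hK ?_)
        exact Subgroup.eq_top_of_card_eq K he
    intro G _ _
    exact key _ G rfl

end Pool.Agent.Results.MP_5ecade_al.WreathReduction
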